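import Pool.Agent.Helper99.ChainDefs
import Pool.Agent.Helper99.ChainFinal

namespace Pool.Agent.Results.MP_3e56e8_al.ChainCongruence

open Pool.Agent.Helper99

theorem result :
    ∀ (G : Type*) [Group G] [Finite G] (p t n : ℕ), p.Prime → Nat.card G = p ^ t * n → ¬ p ∣ n →
      ∀ s : ℕ, s ≤ t → ∀ J : Finset ℕ, J.Nonempty → (∀ c ∈ J, c ≤ s) →
        (∑ I ∈ J.powerset.filter (fun I => I.Nonempty),
          (-1 : ℤ) ^ (I.card + 1) * (chainCount G p s I : ℤ)) ≡ 1 [ZMOD (p : ℤ) ^ J.card] := by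
  intro G _ _ p t n hp hG hn s hs J _ hJs
  exact chain_congruence hp hG hn hs J hJs

end Pool.Agent.Results.MP_3e56e8_al.ChainCongruence
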